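import Pool.Agent.W76.MO.Stmts

/-!
# MP_a187e6_nt, task PB: pairs `(n₁, n)` with a large common prime factor
-/

set_option autoImplicit false

namespace Pool.Agent.W1.MO

open Finset Filter Topology
open scoped Classical
open Pool.Agent.W76.MO

/-- number of multiples of `a` in `(x, x+h]` -/
theorem fib_count (x h a : ℕ) (ha : 0 < a) (G : Finset ℕ)
    (hG : ∀ g ∈ G, x < g * a ∧ g * a ≤ x + h) : (G.card : ℝ) ≤ h / a + 1 := by
  have hsub : G ⊆ Ioc (x / a) ((x + h) / a) := by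
    intro g hg
    obtain ⟨h1, h2⟩ := hG g hg
    rw [mem_Ioc]
    exact ⟨(Nat.div_lt_iff_lt_mul ha).2 h1, (Nat.le_div_iff_mul_le ha).2 h2⟩
  have hc : G.card ≤ (x + h) / a - x / a := by
    calc G.card ≤ (Ioc (x / a) ((x + h) / a)).card := card_le_card hsub
      _ = _ := Nat.card_Ioc _ _
  have hle : x / a ≤ (x + h) / a := Nat.div_le_div_right (Nat.le_add_right _ _)
  have ha' : (0 : ℝ) < a := by exact_mod_cast ha
  have h1 : (((x + h) / a : ℕ) : ℝ) ≤ (x + h) / a := by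
    have := @Nat.cast_div_le ℝ _ _ _ (x + h) a
    push_cast at this
    exact this
  have h2 : (x : ℝ) / a - 1 ≤ ((x / a : ℕ) : ℝ) := by
    have h3 : x < (x / a + 1) * a := by
      have := Nat.lt_div_mul_add (a := x) ha
      nlinarith
    have h4 : (x : ℝ) < ((x / a : ℕ) + 1) * a := by exact_mod_cast h3
    have h5 : (x : ℝ) / a < ((x / a : ℕ) : ℝ) + 1 := by
      rw [div_lt_iff₀ ha']
      exact h4
    linarith
  have h3 : (G.card : ℝ) ≤ (((x + h) / a : ℕ) : ℝ) - ((x / a : ℕ) : ℝ) := by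
    have : ((G.card : ℕ) : ℝ) ≤ (((x + h) / a - x / a : ℕ) : ℝ) := by exact_mod_cast hc
    rwa [Nat.cast_sub hle] at this
  have h4 : ((x : ℝ) + h) / a = x / a + h / a := add_div _ _ _
  linarith

/-- well spaced fractions in an interval -/
theorem frac_count (l : ℕ) (P : Finset (ℕ × ℕ)) (α D : ℝ) (hD : 0 ≤ D)
    (hP : ∀ u ∈ P, Nat.Coprime u.1 u.2 ∧ 0 < u.1 ∧ u.1 < 2 ^ (l + 1) ∧
      α ≤ (u.2 : ℝ) / u.1 ∧ (u.2 : ℝ) / u.1 ≤ α + D) :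
    (P.card : ℝ) ≤ D * 4 ^ (l + 1) + 1 := by
  set f : ℕ × ℕ → ℕ := fun u => ⌊((u.2 : ℝ) / u.1 - α) * 4 ^ (l + 1)⌋₊ with hf
  have hpos : ∀ u ∈ P, 0 ≤ ((u.2 : ℝ) / u.1 - α) * 4 ^ (l + 1) := by
    intro u hu
    have := (hP u hu).2.2.2.1
    apply mul_nonneg (by linarith) (by positivity)
  have hmaps : ∀ u ∈ P, f u ∈ range (⌊D * 4 ^ (l + 1)⌋₊ + 1) := by
    intro u hu
    rw [mem_range, Nat.lt_succ_iff]
    apply Nat.floor_le_floor
    apply mul_le_mul_of_nonneg_right _ (by positivity)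
    linarith [(hP u hu).2.2.2.2]
  have hinj : Set.InjOn f (P : Set (ℕ × ℕ)) := by
    intro u hu v hv huv
    by_contra hne
    obtain ⟨hu1, hu2, hu3, -, -⟩ := hP u hu
    obtain ⟨hv1, hv2, hv3, -, -⟩ := hP v hv
    have hcross : u.2 * v.1 ≠ v.2 * u.1 := by
      intro h
      apply hne
      have h1 : u.1 ∣ v.1 := by
        have : u.1 ∣ u.2 * v.1 := by rw [h]; exact Dvd.intro_left _ rfl
        exact (Nat.Coprime.dvd_of_dvd_mul_left hu1 this)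
      have h2 : v.1 ∣ u.1 := by
        have : v.1 ∣ v.2 * u.1 := by rw [← h]; exact Dvd.intro_left _ rfl
        exact (Nat.Coprime.dvd_of_dvd_mul_left hv1 this)
      have h3 : u.1 = v.1 := Nat.dvd_antisymm h1 h2
      rw [h3] at h
      have h4 : u.2 = v.2 := Nat.eq_of_mul_eq_mul_right hv2 h
      exact Prod.ext h3 h4
    have hu2' : (0 : ℝ) < u.1 := by exact_mod_cast hu2
    have hv2' : (0 : ℝ) < v.1 := by exact_mod_cast hv2
    have hu3' : (u.1 : ℝ) < 2 ^ (l + 1) := by exact_mod_cast hu3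
    have hv3' : (v.1 : ℝ) < 2 ^ (l + 1) := by exact_mod_cast hv3
    -- the difference
    have hdiff : 1 / ((u.1 : ℝ) * v.1) ≤ |(u.2 : ℝ) / u.1 - (v.2 : ℝ) / v.1| := by
      have e : (u.2 : ℝ) / u.1 - (v.2 : ℝ) / v.1 = ((u.2 : ℝ) * v.1 - v.2 * u.1) / (u.1 * v.1) := by
        field_simp
      rw [e, abs_div, abs_of_pos (mul_pos hu2' hv2')]
      apply div_le_div_of_nonneg_right _ (le_of_lt (mul_pos hu2' hv2'))
      have : (1 : ℤ) ≤ |(u.2 : ℤ) * v.1 - v.2 * u.1| := by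
        apply Int.one_le_abs
        intro h
        apply hcross
        have : (u.2 : ℤ) * v.1 = v.2 * u.1 := by linarith
        exact_mod_cast this
      have h2 : ((1 : ℤ) : ℝ) ≤ ((|(u.2 : ℤ) * v.1 - v.2 * u.1| : ℤ) : ℝ) := by exact_mod_cast this
      push_cast at h2
      exact h2
    have h4 : (4 : ℝ) ^ (l + 1) = 2 ^ (l + 1) * 2 ^ (l + 1) := by
      rw [← mul_pow]; norm_num
    have hbig : 1 < |(u.2 : ℝ) / u.1 - (v.2 : ℝ) / v.1| * 4 ^ (l + 1) := by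
      have h5 : (u.1 : ℝ) * v.1 < 4 ^ (l + 1) := by
        rw [h4]
        exact mul_lt_mul'' hu3' hv3' hu2'.le hv2'.le
      have h6 : 1 < 1 / ((u.1 : ℝ) * v.1) * 4 ^ (l + 1) := by
        rw [one_div, inv_mul_eq_div, lt_div_iff₀ (mul_pos hu2' hv2')]
        linarith
      exact lt_of_lt_of_le h6 (mul_le_mul_of_nonneg_right hdiff (by positivity))
    -- but the floors agree
    have e1 := Nat.floor_le (hpos u hu)
    have e2 := Nat.lt_floor_add_one (((u.2 : ℝ) / u.1 - α) * 4 ^ (l + 1))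
    have e3 := Nat.floor_le (hpos v hv)
    have e4 := Nat.lt_floor_add_one (((v.2 : ℝ) / v.1 - α) * 4 ^ (l + 1))
    have e5 : ⌊((u.2 : ℝ) / u.1 - α) * 4 ^ (l + 1)⌋₊ = ⌊((v.2 : ℝ) / v.1 - α) * 4 ^ (l + 1)⌋₊ := huv
    rw [e5] at e1 e2
    have e6 : |((u.2 : ℝ) / u.1 - (v.2 : ℝ) / v.1) * 4 ^ (l + 1)| < 1 := by
      rw [abs_lt]
      constructor <;> nlinarith
    rw [abs_mul, abs_of_pos (show (0 : ℝ) < 4 ^ (l + 1) by positivity)] at e6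
    linarith
  have hcard : P.card ≤ ⌊D * 4 ^ (l + 1)⌋₊ + 1 := by
    have := card_le_card_of_injOn f hmaps hinj
    rwa [card_range] at this
  have h1 : ((⌊D * 4 ^ (l + 1)⌋₊ : ℕ) : ℝ) ≤ D * 4 ^ (l + 1) := Nat.floor_le (by positivity)
  have h2 : (P.card : ℝ) ≤ (⌊D * 4 ^ (l + 1)⌋₊ : ℝ) + 1 := by exact_mod_cast hcard
  linarith

/-- counting the pairs with a given reduced quotient size -/
theorem level_count (l x x' h h' : ℕ) (hx' : 0 < x') (S : Finset (ℕ × ℕ))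
    (hS : ∀ u ∈ S, x' < u.1 ∧ u.1 ≤ x' + h' ∧ x < u.2 ∧ u.2 ≤ x + h ∧
      2 ^ l ≤ u.1 / Nat.gcd u.1 u.2 ∧ u.1 / Nat.gcd u.1 u.2 < 2 ^ (l + 1))
    (F : ℝ) (hF0 : 0 ≤ F) (hF : ∀ a b : ℕ, 0 < a → 2 ^ l ≤ b →
      (x : ℝ) / (x' + h') ≤ (a : ℝ) / b → min ((h : ℝ) / a) ((h' : ℝ) / b) + 1 ≤ F)
    (D : ℝ) (hD0 : 0 ≤ D) (hD : (x + h : ℝ) / x' ≤ (x : ℝ) / (x' + h') + D) :
    (S.card : ℝ) ≤ (D * 4 ^ (l + 1) + 1) * F := by
  have hx'r : (0 : ℝ) < x' := by exact_mod_cast hx'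
  set r : ℕ × ℕ → ℕ × ℕ := fun u => (u.1 / Nat.gcd u.1 u.2, u.2 / Nat.gcd u.1 u.2) with hr
  have hinfo : ∀ u ∈ S, ∃ g a b : ℕ, r u = (b, a) ∧ Nat.gcd u.1 u.2 = g ∧ u.1 = g * b ∧
      u.2 = g * a ∧ 0 < g ∧ 0 < a ∧ 0 < b ∧ Nat.Coprime b a ∧ 2 ^ l ≤ b ∧ b < 2 ^ (l + 1) ∧
      (x : ℝ) / (x' + h') ≤ (a : ℝ) / b ∧ (a : ℝ) / b ≤ (x + h : ℝ) / x' := by
    intro u hu
    obtain ⟨h1, h2, h3, h4, h5, h6⟩ := hS u hu
    have hu1 : 0 < u.1 := by omega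
    have hu2 : 0 < u.2 := by omega
    have hg : 0 < Nat.gcd u.1 u.2 := Nat.gcd_pos_of_pos_left _ hu1
    have e1 : u.1 = Nat.gcd u.1 u.2 * (u.1 / Nat.gcd u.1 u.2) :=
      (Nat.mul_div_cancel' (Nat.gcd_dvd_left _ _)).symm
    have e2 : u.2 = Nat.gcd u.1 u.2 * (u.2 / Nat.gcd u.1 u.2) :=
      (Nat.mul_div_cancel' (Nat.gcd_dvd_right _ _)).symm
    have hb : 0 < u.1 / Nat.gcd u.1 u.2 := lt_of_lt_of_le (by positivity) h5
    have ha : 0 < u.2 / Nat.gcd u.1 u.2 := by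
      rcases Nat.eq_zero_or_pos (u.2 / Nat.gcd u.1 u.2) with h0 | h0
      · rw [h0] at e2; omega
      · exact h0
    have hq : ((u.2 / Nat.gcd u.1 u.2 : ℕ) : ℝ) / ((u.1 / Nat.gcd u.1 u.2 : ℕ) : ℝ) =
        (u.2 : ℝ) / u.1 := by
      have hgr : ((Nat.gcd u.1 u.2 : ℕ) : ℝ) ≠ 0 := by exact_mod_cast hg.ne'
      have hbr : ((u.1 / Nat.gcd u.1 u.2 : ℕ) : ℝ) ≠ 0 := by exact_mod_cast hb.ne'
      have hu1r : (u.1 : ℝ) ≠ 0 := by exact_mod_cast hu1.ne'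
      have e1r : (u.1 : ℝ) = (Nat.gcd u.1 u.2 : ℕ) * ((u.1 / Nat.gcd u.1 u.2 : ℕ) : ℝ) := by
        exact_mod_cast e1
      have e2r : (u.2 : ℝ) = (Nat.gcd u.1 u.2 : ℕ) * ((u.2 / Nat.gcd u.1 u.2 : ℕ) : ℝ) := by
        exact_mod_cast e2
      rw [div_eq_div_iff hbr hu1r]
      rw [e1r, e2r]
      ring_nf
    refine ⟨Nat.gcd u.1 u.2, u.2 / Nat.gcd u.1 u.2, u.1 / Nat.gcd u.1 u.2, rfl, rfl, e1, e2, hg, ha,
      hb, Nat.coprime_div_gcd_div_gcd hg, h5, h6, ?_, ?_⟩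
    · rw [hq]
      have h1r : (u.1 : ℝ) ≤ x' + h' := by exact_mod_cast h2
      have h3r : (x : ℝ) ≤ u.2 := by exact_mod_cast h3.le
      have hu1r : (0 : ℝ) < u.1 := by exact_mod_cast hu1
      exact div_le_div₀ (by positivity) h3r hu1r h1r
    · rw [hq]
      have h1r : (x' : ℝ) ≤ u.1 := by exact_mod_cast h1.le
      have h3r : (u.2 : ℝ) ≤ x + h := by exact_mod_cast h4
      exact div_le_div₀ (by positivity) h3r hx'r h1r
  have hP : ((S.image r).card : ℝ) ≤ D * 4 ^ (l + 1) + 1 := by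
    apply frac_count l (S.image r) ((x : ℝ) / (x' + h')) D hD0
    intro v hv
    rw [mem_image] at hv
    obtain ⟨u, hu, rfl⟩ := hv
    obtain ⟨g, a, b, hru, -, -, -, -, -, hb0, hcop, -, hb2, hl, hup⟩ := hinfo u hu
    rw [hru]
    exact ⟨hcop, hb0, hb2, hl, hup.trans hD⟩
  have hfib : ∀ v ∈ S.image r, (((S.filter (fun u => r u = v)).card : ℕ) : ℝ) ≤ F := by
    intro v hv
    rw [mem_image] at hv
    obtain ⟨u, hu, rfl⟩ := hv
    obtain ⟨g, a, b, hru, hg, e1, e2, hg0, ha0, hb0, hcop, hb1, hb2, hl, hup⟩ := hinfo u hu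
    rw [hru]
    set T := S.filter (fun u => r u = (b, a)) with hT
    have hTm : ∀ w ∈ T, x < Nat.gcd w.1 w.2 * a ∧ Nat.gcd w.1 w.2 * a ≤ x + h ∧
        x' < Nat.gcd w.1 w.2 * b ∧ Nat.gcd w.1 w.2 * b ≤ x' + h' ∧
        w.1 = Nat.gcd w.1 w.2 * b ∧ w.2 = Nat.gcd w.1 w.2 * a := by
      intro w hw
      rw [hT, mem_filter] at hw
      obtain ⟨hwS, hwr⟩ := hw
      obtain ⟨g', a', b', hru', hg', e1', e2', -⟩ := hinfo w hwS
      rw [hwr] at hru'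
      have hbb : b = b' := congrArg Prod.fst hru'
      have haa : a = a' := congrArg Prod.snd hru'
      subst hbb haa
      rw [hg']
      obtain ⟨h1, h2, h3, h4, -, -⟩ := hS w hwS
      rw [← e1', ← e2']
      exact ⟨h3, h4, h1, h2, rfl, rfl⟩
    have hinj : Set.InjOn (fun w : ℕ × ℕ => Nat.gcd w.1 w.2) (T : Set (ℕ × ℕ)) := by
      intro w hw w' hw' hww
      obtain ⟨-, -, -, -, f1, f2⟩ := hTm w hw
      obtain ⟨-, -, -, -, f1', f2'⟩ := hTm w' hw'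
      have hww' : Nat.gcd w.1 w.2 = Nat.gcd w'.1 w'.2 := hww
      apply Prod.ext
      · rw [f1, f1', hww']
      · rw [f2, f2', hww']
    have hTc : (T.image (fun w : ℕ × ℕ => Nat.gcd w.1 w.2)).card = T.card :=
      card_image_of_injOn hinj
    have c1 : (T.card : ℝ) ≤ h / a + 1 := by
      rw [← hTc]
      apply fib_count x h a ha0
      intro g hg
      rw [mem_image] at hg
      obtain ⟨w, hw, rfl⟩ := hg
      obtain ⟨f1, f2, -⟩ := hTm w hw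
      exact ⟨f1, f2⟩
    have c2 : (T.card : ℝ) ≤ h' / b + 1 := by
      rw [← hTc]
      apply fib_count x' h' b hb0
      intro g hg
      rw [mem_image] at hg
      obtain ⟨w, hw, rfl⟩ := hg
      obtain ⟨-, -, f1, f2, -⟩ := hTm w hw
      exact ⟨f1, f2⟩
    refine le_trans ?_ (hF a b ha0 hb1 hl)
    rw [← min_add_add_right]
    exact le_min c1 c2
  have hsum : (S.card : ℝ) = ∑ v ∈ S.image r, (((S.filter (fun u => r u = v)).card : ℕ) : ℝ) := by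
    rw [card_eq_sum_card_image r S]
    push_cast
    rfl
  rw [hsum]
  calc ∑ v ∈ S.image r, (((S.filter (fun u => r u = v)).card : ℕ) : ℝ)
      ≤ ∑ v ∈ S.image r, F := sum_le_sum hfib
    _ = (S.image r).card * F := by rw [sum_const, nsmul_eq_mul]
    _ ≤ _ := mul_le_mul_of_nonneg_right hP hF0

/-! ### powers of two with real exponents -/

theorem e_mul (a b : ℝ) : (2 : ℝ) ^ a * (2 : ℝ) ^ b = (2 : ℝ) ^ (a + b) :=
  (Real.rpow_add (by norm_num) a b).symm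

theorem e_le {a b : ℝ} (h : a ≤ b) : (2 : ℝ) ^ a ≤ (2 : ℝ) ^ b :=
  Real.rpow_le_rpow_of_exponent_le (by norm_num) h

theorem e_pos (a : ℝ) : (0 : ℝ) < (2 : ℝ) ^ a := Real.rpow_pos_of_pos (by norm_num) a

theorem e_nat (i : ℕ) : ((2 ^ i : ℕ) : ℝ) = (2 : ℝ) ^ (i : ℝ) := by
  rw [Real.rpow_natCast]; push_cast; rfl

theorem hh_le (δ : ℝ) (i : ℕ) (h : 0 ≤ (1 / 2 - δ) * i) :
    (hh δ i : ℝ) ≤ (2 : ℝ) ^ ((1 / 2 - δ) * i) := by
  unfold hh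
  rw [e_nat]
  exact e_le (Nat.floor_le h)

theorem hh_ge (δ : ℝ) (i : ℕ) :
    (2 : ℝ) ^ ((1 / 2 - δ) * i) ≤ 2 * (hh δ i : ℝ) := by
  unfold hh
  rw [e_nat]
  have h1 : (2 : ℝ) * (2 : ℝ) ^ ((⌊(1 / 2 - δ) * i⌋₊ : ℕ) : ℝ) =
      (2 : ℝ) ^ (((⌊(1 / 2 - δ) * i⌋₊ : ℕ) : ℝ) + 1) := by
    rw [Real.rpow_add (by norm_num), Real.rpow_one]; ring
  rw [h1]
  exact e_le (Nat.lt_floor_add_one _).le

theorem hh_pos (δ : ℝ) (i : ℕ) : (0 : ℝ) < hh δ i := by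
  unfold hh; positivity

theorem real_A (τ δ i i' h D t : ℝ) (hτ : 0 < τ) (hτ' : τ ≤ 1 / 100) (hδ : 0 < δ)
    (hδ' : δ ≤ τ / 1000) (hi : 0 ≤ i) (h1 : (1 - τ) * i ≤ i') (h2 : i' ≤ i) (hh0 : 0 < h)
    (hh1 : (2 : ℝ) ^ ((1 / 2 - δ) * i) ≤ 2 * h) (hD0 : 0 ≤ D)
    (hD : D ≤ 3 * (2 : ℝ) ^ (i - (3 / 2 + δ) * i')) (ht : 0 < t)
    (ht1 : t ≤ 4 * (2 : ℝ) ^ ((1 / 2 - τ) * i')) (ht2 : 1 / t ≤ 2 * (2 : ℝ) ^ (-τ * i')) :
    (D * (4 * t ^ 2) + 1) * (4 * h * (2 : ℝ) ^ (i' - i) / t + 1) ≤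
      600 * (h * (2 : ℝ) ^ (-(τ / 2) * i)) := by
  have hi' : i / 2 ≤ i' := by nlinarith
  have hi'0 : 0 ≤ i' := by linarith
  set H := 4 * h * (2 : ℝ) ^ (i' - i) with hH
  have hH0 : 0 < H := by have := e_pos (i' - i); positivity
  set K := h * (2 : ℝ) ^ (-(τ / 2) * i) with hK
  have hexp : (D * (4 * t ^ 2) + 1) * (H / t + 1) =
      4 * (D * H * t) + 4 * (D * (t * t)) + H * (1 / t) + 1 := by
    field_simp
    ring
  rw [hexp]
  -- first term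
  have T1 : D * H * t ≤ 48 * K := by
    calc D * H * t ≤ (3 * (2 : ℝ) ^ (i - (3 / 2 + δ) * i')) * H * (4 * (2 : ℝ) ^ ((1 / 2 - τ) * i')) := by
          have := e_pos (i - (3 / 2 + δ) * i')
          have := e_pos ((1 / 2 - τ) * i')
          gcongr
      _ = 48 * (h * ((2 : ℝ) ^ (i - (3 / 2 + δ) * i') * (2 : ℝ) ^ (i' - i) *
            (2 : ℝ) ^ ((1 / 2 - τ) * i'))) := by rw [hH]; ring
      _ = 48 * (h * (2 : ℝ) ^ (-(δ + τ) * i')) := by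
          rw [e_mul, e_mul]; congr 3; ring
      _ ≤ 48 * K := by
          rw [hK]
          have : (2 : ℝ) ^ (-(δ + τ) * i') ≤ (2 : ℝ) ^ (-(τ / 2) * i) := e_le (by nlinarith)
          gcongr
  have T2 : D * (t * t) ≤ 96 * K := by
    calc D * (t * t) ≤ (3 * (2 : ℝ) ^ (i - (3 / 2 + δ) * i')) *
          ((4 * (2 : ℝ) ^ ((1 / 2 - τ) * i')) * (4 * (2 : ℝ) ^ ((1 / 2 - τ) * i'))) := by
          have := e_pos (i - (3 / 2 + δ) * i')
          have := e_pos ((1 / 2 - τ) * i')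
          gcongr
      _ = 48 * ((2 : ℝ) ^ (i - (3 / 2 + δ) * i') * (2 : ℝ) ^ ((1 / 2 - τ) * i') *
            (2 : ℝ) ^ ((1 / 2 - τ) * i')) := by ring
      _ = 48 * ((2 : ℝ) ^ ((1 / 2 - δ) * i) * (2 : ℝ) ^ ((1 / 2 + δ) * i - (1 / 2 + δ + 2 * τ) * i')) := by
          rw [e_mul, e_mul, e_mul]; congr 2; ring
      _ ≤ 48 * ((2 * h) * (2 : ℝ) ^ (-(τ / 2) * i)) := by
          have h3 : (2 : ℝ) ^ ((1 / 2 + δ) * i - (1 / 2 + δ + 2 * τ) * i') ≤ (2 : ℝ) ^ (-(τ / 2) * i) := by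
            apply e_le
            have h4 : (1 / 2 + δ + 2 * τ) * ((1 - τ) * i) ≤ (1 / 2 + δ + 2 * τ) * i' :=
              mul_le_mul_of_nonneg_left h1 (by linarith)
            have h5 : 0 ≤ (τ - δ * τ - 2 * τ * τ) * i := by
              apply mul_nonneg _ hi
              nlinarith
            nlinarith
          have := e_pos ((1 / 2 - δ) * i)
          have := e_pos ((1 / 2 + δ) * i - (1 / 2 + δ + 2 * τ) * i')
          gcongr
      _ = 96 * K := by rw [hK]; ring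
  have T3 : H * (1 / t) ≤ 8 * K := by
    calc H * (1 / t) ≤ H * (2 * (2 : ℝ) ^ (-τ * i')) := by gcongr
      _ = 8 * (h * ((2 : ℝ) ^ (i' - i) * (2 : ℝ) ^ (-τ * i'))) := by rw [hH]; ring
      _ = 8 * (h * (2 : ℝ) ^ (i' - i - τ * i')) := by
          rw [e_mul]; congr 3; ring
      _ ≤ 8 * K := by
          rw [hK]
          have : (2 : ℝ) ^ (i' - i - τ * i') ≤ (2 : ℝ) ^ (-(τ / 2) * i) := e_le (by nlinarith)
          gcongr
  have T4 : 1 ≤ 2 * K := by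
    have h3 : (2 : ℝ) ^ ((1 / 2 - δ) * i) * (2 : ℝ) ^ (-(τ / 2) * i) ≤
        (2 * h) * (2 : ℝ) ^ (-(τ / 2) * i) := by
      have := e_pos (-(τ / 2) * i)
      gcongr
    rw [e_mul] at h3
    have h4 : (1 : ℝ) ≤ (2 : ℝ) ^ ((1 / 2 - δ) * i + -(τ / 2) * i) := by
      apply Real.one_le_rpow (by norm_num)
      have : (1 / 2 - δ) * i + -(τ / 2) * i = (1 / 2 - δ - τ / 2) * i := by ring
      rw [this]
      apply mul_nonneg _ hi
      linarith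
    rw [hK]
    linarith
  have hK0 : 0 < K := by have := e_pos (-(τ / 2) * i); positivity
  linarith

theorem real_B (τ δ i i' h h' D t : ℝ) (hτ : 0 < τ) (hτ' : τ ≤ 1 / 100) (hδ : 0 < δ)
    (hδ' : δ ≤ τ / 1000) (hi : 0 ≤ i) (h2 : i ≤ i') (hh0 : 0 < h) (hh0' : 0 < h')
    (hh1 : (2 : ℝ) ^ ((1 / 2 - δ) * i) ≤ 2 * h) (hh2 : h' ≤ (2 : ℝ) ^ ((1 / 2 - δ) * i'))
    (hD0 : 0 ≤ D)
    (hD : D ≤ 3 * (2 : ℝ) ^ ((1 / 2 - δ) * i - i')) (ht : 0 < t)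
    (ht1 : t ≤ 4 * (2 : ℝ) ^ ((1 / 2 - τ) * i')) (ht2 : 1 / t ≤ 2 * (2 : ℝ) ^ (-τ * i'))
    (ht3 : 1 / t ≤ 8 * (2 : ℝ) ^ (i - i')) :
    (D * (4 * t ^ 2) + 1) * (h' / t + 1) ≤
      600 * (h * (2 : ℝ) ^ (-(τ / 2) * i)) := by
  have hi'0 : 0 ≤ i' := by linarith
  set K := h * (2 : ℝ) ^ (-(τ / 2) * i) with hK
  have hexp : (D * (4 * t ^ 2) + 1) * (h' / t + 1) =
      4 * (D * h' * t) + 4 * (D * (t * t)) + h' * (1 / t) + 1 := by
    field_simp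
    ring
  rw [hexp]
  have T1 : D * h' * t ≤ 24 * K := by
    calc D * h' * t ≤ (3 * (2 : ℝ) ^ ((1 / 2 - δ) * i - i')) * (2 : ℝ) ^ ((1 / 2 - δ) * i') *
          (4 * (2 : ℝ) ^ ((1 / 2 - τ) * i')) := by
          have := e_pos ((1 / 2 - δ) * i - i')
          have := e_pos ((1 / 2 - δ) * i')
          have := e_pos ((1 / 2 - τ) * i')
          gcongr
      _ = 12 * ((2 : ℝ) ^ ((1 / 2 - δ) * i - i') * (2 : ℝ) ^ ((1 / 2 - δ) * i') *
            (2 : ℝ) ^ ((1 / 2 - τ) * i')) := by ring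
      _ = 12 * ((2 : ℝ) ^ ((1 / 2 - δ) * i) * (2 : ℝ) ^ (-(δ + τ) * i')) := by
          rw [e_mul, e_mul, e_mul]; congr 2; ring
      _ ≤ 12 * ((2 * h) * (2 : ℝ) ^ (-(τ / 2) * i)) := by
          have : (2 : ℝ) ^ (-(δ + τ) * i') ≤ (2 : ℝ) ^ (-(τ / 2) * i) := e_le (by nlinarith)
          have := e_pos (-(δ + τ) * i')
          gcongr
      _ = 24 * K := by rw [hK]; ring
  have T2 : D * (t * t) ≤ 96 * K := by
    calc D * (t * t) ≤ (3 * (2 : ℝ) ^ ((1 / 2 - δ) * i - i')) *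
          ((4 * (2 : ℝ) ^ ((1 / 2 - τ) * i')) * (4 * (2 : ℝ) ^ ((1 / 2 - τ) * i'))) := by
          have := e_pos ((1 / 2 - δ) * i - i')
          have := e_pos ((1 / 2 - τ) * i')
          gcongr
      _ = 48 * ((2 : ℝ) ^ ((1 / 2 - δ) * i - i') * (2 : ℝ) ^ ((1 / 2 - τ) * i') *
            (2 : ℝ) ^ ((1 / 2 - τ) * i')) := by ring
      _ = 48 * ((2 : ℝ) ^ ((1 / 2 - δ) * i) * (2 : ℝ) ^ (-(2 * τ) * i')) := by
          rw [e_mul, e_mul, e_mul]; congr 2; ring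
      _ ≤ 48 * ((2 * h) * (2 : ℝ) ^ (-(τ / 2) * i)) := by
          have h3 : (2 : ℝ) ^ (-(2 * τ) * i') ≤ (2 : ℝ) ^ (-(τ / 2) * i) := by
            apply e_le
            nlinarith
          have := e_pos (-(2 * τ) * i')
          gcongr
      _ = 96 * K := by rw [hK]; ring
  have T3 : h' * (1 / t) ≤ 16 * K := by
    have hm : 1 / t ≤ 8 * (2 : ℝ) ^ (-(1 / 2 + δ) * τ * i' + (1 / 2 - δ) * (i - i')) := by
      rcases le_total (-τ * i') (i - i') with hc | hc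
      · refine ht2.trans ?_
        have : (2 : ℝ) ^ (-τ * i') ≤ (2 : ℝ) ^ (-(1 / 2 + δ) * τ * i' + (1 / 2 - δ) * (i - i')) := by
          apply e_le
          nlinarith
        linarith [e_pos (-τ * i')]
      · refine ht3.trans ?_
        have : (2 : ℝ) ^ (i - i') ≤ (2 : ℝ) ^ (-(1 / 2 + δ) * τ * i' + (1 / 2 - δ) * (i - i')) := by
          apply e_le
          nlinarith
        linarith [e_pos (i - i')]
    calc h' * (1 / t) ≤ (2 : ℝ) ^ ((1 / 2 - δ) * i') *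
          (8 * (2 : ℝ) ^ (-(1 / 2 + δ) * τ * i' + (1 / 2 - δ) * (i - i'))) := by gcongr
      _ = 8 * ((2 : ℝ) ^ ((1 / 2 - δ) * i') *
          (2 : ℝ) ^ (-(1 / 2 + δ) * τ * i' + (1 / 2 - δ) * (i - i'))) := by ring
      _ = 8 * ((2 : ℝ) ^ ((1 / 2 - δ) * i) * (2 : ℝ) ^ (-(1 / 2 + δ) * τ * i')) := by
          rw [e_mul, e_mul]; congr 2; ring
      _ ≤ 8 * ((2 * h) * (2 : ℝ) ^ (-(τ / 2) * i)) := by
          have h3 : (2 : ℝ) ^ (-(1 / 2 + δ) * τ * i') ≤ (2 : ℝ) ^ (-(τ / 2) * i) := by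
            apply e_le
            nlinarith [mul_nonneg (mul_nonneg hδ.le hτ.le) hi'0]
          have := e_pos (-(1 / 2 + δ) * τ * i')
          gcongr
      _ = 16 * K := by rw [hK]; ring
  have T4 : 1 ≤ 2 * K := by
    have h3 : (2 : ℝ) ^ ((1 / 2 - δ) * i) * (2 : ℝ) ^ (-(τ / 2) * i) ≤
        (2 * h) * (2 : ℝ) ^ (-(τ / 2) * i) := by
      have := e_pos (-(τ / 2) * i)
      gcongr
    rw [e_mul] at h3
    have h4 : (1 : ℝ) ≤ (2 : ℝ) ^ ((1 / 2 - δ) * i + -(τ / 2) * i) := by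
      apply Real.one_le_rpow (by norm_num)
      have : (1 / 2 - δ) * i + -(τ / 2) * i = (1 / 2 - δ - τ / 2) * i := by ring
      rw [this]
      apply mul_nonneg _ hi
      linarith
    rw [hK]
    linarith
  have hK0 : 0 < K := by have := e_pos (-(τ / 2) * i); positivity
  linarith

theorem poly_le_exp (c : ℝ) (hc : 0 < c) : ∃ J : ℕ, 1 ≤ J ∧ ∀ i : ℕ, J ≤ i →
    600 * (2 * (i : ℝ) + 5) ≤ (2 : ℝ) ^ (c * i) := by
  have hl : 0 < Real.log 2 := Real.log_pos (by norm_num)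
  set d := c * Real.log 2 with hd
  have hd0 : 0 < d := by positivity
  obtain ⟨J, hJ⟩ := exists_nat_gt (8400 / d ^ 2)
  refine ⟨max J 1, le_max_right _ _, ?_⟩
  intro i hi
  have hiJ : (J : ℝ) ≤ i := by exact_mod_cast le_trans (le_max_left _ _) hi
  have hi1 : (1 : ℝ) ≤ i := by exact_mod_cast le_trans (le_max_right _ _) hi
  have h1 : 8400 < d ^ 2 * i := by
    have : 8400 / d ^ 2 < i := lt_of_lt_of_le hJ hiJ
    rw [div_lt_iff₀ (by positivity)] at this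
    linarith
  have h2 : (2 : ℝ) ^ (c * i) = Real.exp (d * i) := by
    rw [Real.rpow_def_of_pos (by norm_num), hd]; congr 1; ring
  rw [h2]
  have h3 := Real.quadratic_le_exp_of_nonneg (show 0 ≤ d * i by positivity)
  have h4 : 600 * (2 * (i : ℝ) + 5) ≤ (d * i) ^ 2 / 2 := by
    have : (d * i) ^ 2 = (d ^ 2 * i) * i := by ring
    rw [this]
    nlinarith
  have : 0 ≤ d * i := by positivity
  linarith

/-- the facts about a pair counted in `PairB` -/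
theorem pair_facts (τ δ : ℝ) (hτ : 0 < τ) (hτ' : τ ≤ 1 / 100) (hδ : 0 < δ)
    (i' n₁ n : ℕ) (hn₁ : 0 < n₁) (hup : (n₁ : ℝ) ≤ 3 * (2 : ℝ) ^ (i' : ℝ))
    (hex : ∃ m q : ℕ, n₁ = m * q ∧ q.Prime ∧ (2 : ℝ) ^ ((1 / 2 + τ) * i') ≤ q ∧
        Rough ((2 : ℝ) ^ (τ * i')) m ∧ q ∣ n ∧ ¬ n₁ ∣ n) :
    (2 : ℝ) ^ (τ * i') ≤ ((n₁ / Nat.gcd n₁ n : ℕ) : ℝ) ∧
      ((n₁ / Nat.gcd n₁ n : ℕ) : ℝ) ≤ 3 * (2 : ℝ) ^ ((1 / 2 - τ) * i') := by
  obtain ⟨m, q, hmq, hq, hql, hrough, hqn, hnd⟩ := hex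
  have hg0 : 0 < Nat.gcd n₁ n := Nat.gcd_pos_of_pos_left _ hn₁
  have hqg : q ∣ Nat.gcd n₁ n := Nat.dvd_gcd (by rw [hmq]; exact Dvd.intro_left _ rfl) hqn
  obtain ⟨g', hg'⟩ := hqg
  have e1 : n₁ = Nat.gcd n₁ n * (n₁ / Nat.gcd n₁ n) :=
    (Nat.mul_div_cancel' (Nat.gcd_dvd_left _ _)).symm
  set b := n₁ / Nat.gcd n₁ n with hb
  have hbm : m = g' * b := by
    have h1 : q * m = q * (g' * b) := by
      have : n₁ = q * g' * b := by rw [← hg']; exact e1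
      rw [← mul_assoc, ← this, hmq, mul_comm]
    exact Nat.eq_of_mul_eq_mul_left hq.pos h1
  have hm0 : 0 < m := by
    rcases Nat.eq_zero_or_pos m with h0 | h0
    · rw [h0] at hmq; simp at hmq; omega
    · exact h0
  have hb0 : 0 < b := by
    rcases Nat.eq_zero_or_pos b with h0 | h0
    · rw [h0] at hbm; simp at hbm; omega
    · exact h0
  have hb1 : b ≠ 1 := by
    intro h
    apply hnd
    rw [h, mul_one] at e1
    rw [e1]
    exact Nat.gcd_dvd_right _ _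
  constructor
  · obtain ⟨p, hp, hpb⟩ := Nat.exists_prime_and_dvd hb1
    have h1 := hrough p hp (by rw [hbm]; exact Dvd.dvd.mul_left hpb _)
    have h2 : (p : ℝ) ≤ b := by exact_mod_cast Nat.le_of_dvd hb0 hpb
    exact h1.trans h2
  · have h1 : b ≤ m := Nat.le_of_dvd hm0 (by rw [hbm]; exact Dvd.intro_left _ rfl)
    have h1' : (b : ℝ) ≤ m := by exact_mod_cast h1
    have h2 : (m : ℝ) * (2 : ℝ) ^ ((1 / 2 + τ) * i') ≤ 3 * (2 : ℝ) ^ (i' : ℝ) := by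
      refine le_trans ?_ hup
      have : (n₁ : ℝ) = m * q := by exact_mod_cast hmq
      rw [this]
      gcongr
    have h3 : (2 : ℝ) ^ (i' : ℝ) = (2 : ℝ) ^ ((1 / 2 - τ) * i') * (2 : ℝ) ^ ((1 / 2 + τ) * i') := by
      rw [e_mul]; congr 1; ring
    rw [h3, ← mul_assoc] at h2
    exact h1'.trans (le_of_mul_le_mul_right h2 (e_pos _))

theorem pb : T_PB := by
  intro τ δ hτ hτ' hδ hδ'
  obtain ⟨J, hJ1, hJ⟩ := poly_le_exp (τ / 4) (by linarith)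
  refine ⟨J, ?_⟩
  intro i i' hi hii' hi'i x x' hx1 hx2 hx1' hx2'
  have hδ1 : δ ≤ 1 / 100 := by linarith
  have hi0 : (0 : ℝ) ≤ i := Nat.cast_nonneg i
  have hi'0 : (0 : ℝ) ≤ i' := Nat.cast_nonneg i'
  have hi1 : (1 : ℝ) ≤ i := by exact_mod_cast le_trans hJ1 hi
  have hh0 : (0 : ℝ) < hh δ i := hh_pos δ i
  have hh0' : (0 : ℝ) < hh δ i' := hh_pos δ i'
  have hhl : (hh δ i : ℝ) ≤ (2 : ℝ) ^ ((1 / 2 - δ) * i) :=
    hh_le δ i (mul_nonneg (by linarith) hi0)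
  have hhl' : (hh δ i' : ℝ) ≤ (2 : ℝ) ^ ((1 / 2 - δ) * i') :=
    hh_le δ i' (mul_nonneg (by linarith) hi'0)
  have hhg := hh_ge δ i
  have hhX : (hh δ i : ℝ) ≤ (2 : ℝ) ^ (i : ℝ) := hhl.trans (e_le (by nlinarith))
  have hhX' : (hh δ i' : ℝ) ≤ (2 : ℝ) ^ (i' : ℝ) := hhl'.trans (e_le (by nlinarith))
  have hxr1 : (2 : ℝ) ^ (i : ℝ) ≤ x := by rw [← e_nat]; exact_mod_cast hx1
  have hxr2 : (x : ℝ) ≤ 2 * (2 : ℝ) ^ (i : ℝ) := by
    have : ((2 ^ (i + 1) : ℕ) : ℝ) = 2 * (2 : ℝ) ^ (i : ℝ) := by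
      rw [← e_nat]; push_cast; ring
    rw [← this]; exact_mod_cast hx2
  have hxr1' : (2 : ℝ) ^ (i' : ℝ) ≤ x' := by rw [← e_nat]; exact_mod_cast hx1'
  have hxr2' : (x' : ℝ) ≤ 2 * (2 : ℝ) ^ (i' : ℝ) := by
    have : ((2 ^ (i' + 1) : ℕ) : ℝ) = 2 * (2 : ℝ) ^ (i' : ℝ) := by
      rw [← e_nat]; push_cast; ring
    rw [← this]; exact_mod_cast hx2'
  have hX0 := e_pos (i : ℝ)
  have hX0' := e_pos (i' : ℝ)
  have hx0' : (0 : ℝ) < x' := lt_of_lt_of_le hX0' hxr1'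
  have hx0 : (0 : ℝ) < x := lt_of_lt_of_le hX0 hxr1
  set S := (((Ioc x' (x' + hh δ i')) ×ˢ (Ioc x (x + hh δ i))).filter (fun u : ℕ × ℕ =>
      ∃ m q : ℕ, u.1 = m * q ∧ q.Prime ∧ (2 : ℝ) ^ ((1 / 2 + τ) * i') ≤ q ∧
        Rough ((2 : ℝ) ^ (τ * i')) m ∧ q ∣ u.2 ∧ ¬ u.1 ∣ u.2)) with hS
  have hmem : ∀ u ∈ S, x' < u.1 ∧ u.1 ≤ x' + hh δ i' ∧ x < u.2 ∧ u.2 ≤ x + hh δ i ∧
      (2 : ℝ) ^ (τ * i') ≤ ((u.1 / Nat.gcd u.1 u.2 : ℕ) : ℝ) ∧
      ((u.1 / Nat.gcd u.1 u.2 : ℕ) : ℝ) ≤ 3 * (2 : ℝ) ^ ((1 / 2 - τ) * i') := by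
    intro u hu
    rw [hS, mem_filter, mem_product, mem_Ioc, mem_Ioc] at hu
    obtain ⟨⟨⟨h1, h2⟩, h3, h4⟩, h5⟩ := hu
    have hu1 : 0 < u.1 := by omega
    have hup : (u.1 : ℝ) ≤ 3 * (2 : ℝ) ^ (i' : ℝ) := by
      have : (u.1 : ℝ) ≤ x' + hh δ i' := by exact_mod_cast h2
      linarith
    exact ⟨h1, h2, h3, h4, pair_facts τ δ hτ hτ' hδ i' u.1 u.2 hu1 hup h5⟩
  -- the level sets
  set L : ℕ × ℕ → ℕ := fun u => Nat.log 2 (u.1 / Nat.gcd u.1 u.2) with hL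
  have hLr : ∀ u ∈ S, L u ∈ range (i' + 2) := by
    intro u hu
    obtain ⟨h1, h2, h3, h4, h5, h6⟩ := hmem u hu
    rw [mem_range]
    apply Nat.log_lt_of_lt_pow
    · intro h0
      rw [h0] at h5
      have := e_pos (τ * i')
      norm_num at h5
      linarith
    · have : ((u.1 / Nat.gcd u.1 u.2 : ℕ) : ℝ) < ((2 ^ (i' + 2) : ℕ) : ℝ) := by
        have e : ((2 ^ (i' + 2) : ℕ) : ℝ) = 4 * (2 : ℝ) ^ (i' : ℝ) := by
          rw [← e_nat]; push_cast; ring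
        rw [e]
        have : (2 : ℝ) ^ ((1 / 2 - τ) * i') ≤ (2 : ℝ) ^ (i' : ℝ) := e_le (by nlinarith)
        linarith
      exact_mod_cast this
  -- bound for one level
  have hlevel : ∀ l ∈ range (i' + 2), (((S.filter (fun u => L u = l)).card : ℕ) : ℝ) ≤
      600 * (hh δ i * (2 : ℝ) ^ (-(τ / 2) * i)) := by
    intro l _
    rcases (S.filter (fun u => L u = l)).eq_empty_or_nonempty with hemp | ⟨u₀, hu₀⟩
    · rw [hemp]
      have := e_pos (-(τ / 2) * i)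
      simp only [card_empty, Nat.cast_zero]
      positivity
    -- facts for the level
    have hbl : ∀ u ∈ S.filter (fun u => L u = l), 2 ^ l ≤ u.1 / Nat.gcd u.1 u.2 ∧
        u.1 / Nat.gcd u.1 u.2 < 2 ^ (l + 1) := by
      intro u hu
      rw [mem_filter] at hu
      obtain ⟨huS, hul⟩ := hu
      obtain ⟨h1, h2, h3, h4, h5, h6⟩ := hmem u huS
      have hne : u.1 / Nat.gcd u.1 u.2 ≠ 0 := by
        intro h0
        rw [h0] at h5
        have := e_pos (τ * i')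
        norm_num at h5
        linarith
      have h7 : Nat.log 2 (u.1 / Nat.gcd u.1 u.2) = l := hul
      constructor
      · rw [← h7]; exact Nat.pow_log_le_self 2 hne
      · rw [← h7]; exact Nat.lt_pow_succ_log_self (by norm_num) _
    set t : ℝ := (2 : ℝ) ^ l with ht
    have ht0 : 0 < t := by positivity
    obtain ⟨b1, b2⟩ := hbl u₀ hu₀
    have hu₀S : u₀ ∈ S := (mem_filter.1 hu₀).1
    obtain ⟨h1, h2, h3, h4, h5, h6⟩ := hmem u₀ hu₀S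
    have b1r : t ≤ ((u₀.1 / Nat.gcd u₀.1 u₀.2 : ℕ) : ℝ) := by
      rw [ht]; exact_mod_cast b1
    have b2r : ((u₀.1 / Nat.gcd u₀.1 u₀.2 : ℕ) : ℝ) < 2 * t := by
      have : ((u₀.1 / Nat.gcd u₀.1 u₀.2 : ℕ) : ℝ) < ((2 ^ (l + 1) : ℕ) : ℝ) := by exact_mod_cast b2
      rw [ht]
      push_cast at this ⊢
      rw [pow_succ] at this
      linarith
    have ht1 : t ≤ 4 * (2 : ℝ) ^ ((1 / 2 - τ) * i') := by
      have := e_pos ((1 / 2 - τ) * i')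
      linarith
    have ht2 : 1 / t ≤ 2 * (2 : ℝ) ^ (-τ * i') := by
      have h7 : (2 : ℝ) ^ (τ * i') ≤ 2 * t := by linarith
      have h8 : (2 : ℝ) ^ (τ * i') * (2 : ℝ) ^ (-τ * i') = 1 := by
        rw [e_mul]
        have : τ * (i' : ℝ) + -τ * i' = 0 := by ring
        rw [this, Real.rpow_zero]
      rw [div_le_iff₀ ht0]
      have := e_pos (-τ * i')
      nlinarith
    have ht3 : 1 / t ≤ 8 * (2 : ℝ) ^ ((i : ℝ) - i') := by
      have hb : (2 : ℝ) ^ (i' : ℝ) ≤ ((u₀.1 / Nat.gcd u₀.1 u₀.2 : ℕ) : ℝ) * (3 * (2 : ℝ) ^ (i : ℝ)) := by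
        have e1 : u₀.1 = Nat.gcd u₀.1 u₀.2 * (u₀.1 / Nat.gcd u₀.1 u₀.2) :=
          (Nat.mul_div_cancel' (Nat.gcd_dvd_left _ _)).symm
        have e2 : Nat.gcd u₀.1 u₀.2 ≤ u₀.2 := Nat.gcd_le_right _ (by omega)
        have e3 : u₀.1 ≤ u₀.2 * (u₀.1 / Nat.gcd u₀.1 u₀.2) := by
          calc u₀.1 = Nat.gcd u₀.1 u₀.2 * (u₀.1 / Nat.gcd u₀.1 u₀.2) := e1
            _ ≤ _ := Nat.mul_le_mul_right _ e2
        have e4 : (u₀.1 : ℝ) ≤ u₀.2 * ((u₀.1 / Nat.gcd u₀.1 u₀.2 : ℕ) : ℝ) := by exact_mod_cast e3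
        have e5 : (u₀.2 : ℝ) ≤ 3 * (2 : ℝ) ^ (i : ℝ) := by
          have : (u₀.2 : ℝ) ≤ x + hh δ i := by exact_mod_cast h4
          linarith
        have e6 : (x' : ℝ) ≤ u₀.1 := by exact_mod_cast h1.le
        have e7 : (u₀.2 : ℝ) * ((u₀.1 / Nat.gcd u₀.1 u₀.2 : ℕ) : ℝ) ≤
            (3 * (2 : ℝ) ^ (i : ℝ)) * ((u₀.1 / Nat.gcd u₀.1 u₀.2 : ℕ) : ℝ) := by gcongr
        linarith
      have h9 : (2 : ℝ) ^ (i' : ℝ) ≤ 2 * t * (3 * (2 : ℝ) ^ (i : ℝ)) := by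
        refine hb.trans ?_
        gcongr
      have h10 : (2 : ℝ) ^ (i' : ℝ) * (2 : ℝ) ^ ((i : ℝ) - i') = (2 : ℝ) ^ (i : ℝ) := by
        rw [e_mul]; congr 1; ring
      have h11 := e_pos ((i : ℝ) - i')
      have h12 : (2 : ℝ) ^ (i : ℝ) ≤ (2 * t * (3 * (2 : ℝ) ^ (i : ℝ))) * (2 : ℝ) ^ ((i : ℝ) - i') := by
        calc (2 : ℝ) ^ (i : ℝ) = (2 : ℝ) ^ (i' : ℝ) * (2 : ℝ) ^ ((i : ℝ) - i') := h10.symm
          _ ≤ _ := by gcongr
      have h13 : 1 ≤ 6 * t * (2 : ℝ) ^ ((i : ℝ) - i') := by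
        have : (2 : ℝ) ^ (i : ℝ) * 1 ≤ (2 : ℝ) ^ (i : ℝ) * (6 * t * (2 : ℝ) ^ ((i : ℝ) - i')) := by
          calc (2 : ℝ) ^ (i : ℝ) * 1 = (2 : ℝ) ^ (i : ℝ) := mul_one _
            _ ≤ (2 * t * (3 * (2 : ℝ) ^ (i : ℝ))) * (2 : ℝ) ^ ((i : ℝ) - i') := h12
            _ = _ := by ring
        exact le_of_mul_le_mul_left this hX0
      rw [div_le_iff₀ ht0]
      nlinarith
    -- the length of the interval of quotients
    set D : ℝ := hh δ i / (2 : ℝ) ^ (i' : ℝ) +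
      2 * (2 : ℝ) ^ (i : ℝ) * hh δ i' / ((2 : ℝ) ^ (i' : ℝ) * (2 : ℝ) ^ (i' : ℝ)) with hDdef
    have hD0 : 0 ≤ D := by positivity
    have hDle : ((x : ℝ) + hh δ i) / x' ≤ (x : ℝ) / (x' + hh δ i') + D := by
      have f1 : (x : ℝ) / x' - (x : ℝ) / (x' + hh δ i') = x * hh δ i' / (x' * (x' + hh δ i')) := by
        field_simp
        ring
      have f2 : (x : ℝ) * hh δ i' / (x' * (x' + hh δ i')) ≤
          2 * (2 : ℝ) ^ (i : ℝ) * hh δ i' / ((2 : ℝ) ^ (i' : ℝ) * (2 : ℝ) ^ (i' : ℝ)) := by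
        have : (x' : ℝ) ≤ x' + hh δ i' := by linarith
        have f3 : (2 : ℝ) ^ (i' : ℝ) ≤ x' + hh δ i' := by linarith
        gcongr
      have f4 : (hh δ i : ℝ) / x' ≤ hh δ i / (2 : ℝ) ^ (i' : ℝ) := by gcongr
      rw [add_div, hDdef]
      linarith
    have h4l : (4 : ℝ) ^ (l + 1) = 4 * t ^ 2 := by
      rw [ht, ← pow_mul, pow_succ, mul_comm l 2, pow_mul]; norm_num [mul_comm]
    have hD1 : (hh δ i : ℝ) / (2 : ℝ) ^ (i' : ℝ) ≤ (2 : ℝ) ^ ((1 / 2 - δ) * i - i') := by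
      rw [Real.rpow_sub (by norm_num)]
      gcongr
    have hD2 : (2 : ℝ) * (2 : ℝ) ^ (i : ℝ) * hh δ i' / ((2 : ℝ) ^ (i' : ℝ) * (2 : ℝ) ^ (i' : ℝ)) ≤
        2 * (2 : ℝ) ^ (i - (3 / 2 + δ) * i') := by
      have f1 : (2 : ℝ) ^ ((i : ℝ) - (3 / 2 + δ) * i') * ((2 : ℝ) ^ (i' : ℝ) * (2 : ℝ) ^ (i' : ℝ)) =
          (2 : ℝ) ^ (i : ℝ) * (2 : ℝ) ^ ((1 / 2 - δ) * i') := by
        rw [e_mul, e_mul, e_mul]; congr 1; ring
      rw [div_le_iff₀ (by positivity), mul_assoc 2 _ (_ * _), f1]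
      nlinarith [mul_le_mul_of_nonneg_left hhl' hX0.le]
    rcases le_or_gt i' i with hcase | hcase
    · have hc : (i' : ℝ) ≤ i := by exact_mod_cast hcase
      have hD3 : D ≤ 3 * (2 : ℝ) ^ ((i : ℝ) - (3 / 2 + δ) * i') := by
        have f1 : (2 : ℝ) ^ ((1 / 2 - δ) * i - i') ≤ (2 : ℝ) ^ ((i : ℝ) - (3 / 2 + δ) * i') := by
          apply e_le
          nlinarith
        rw [hDdef]
        linarith
      have hfin := level_count l x x' (hh δ i) (hh δ i') (by exact_mod_cast hx0')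
        (S.filter (fun u => L u = l))
        (by
          intro u hu
          obtain ⟨c1, c2⟩ := hbl u hu
          obtain ⟨d1, d2, d3, d4, -, -⟩ := hmem u (mem_filter.1 hu).1
          exact ⟨d1, d2, d3, d4, c1, c2⟩)
        (4 * hh δ i * (2 : ℝ) ^ ((i' : ℝ) - i) / t + 1) (by
          have := e_pos ((i' : ℝ) - i); positivity)
        (by
          intro a b ha hb hab
          have hb0 : 0 < b := lt_of_lt_of_le (by positivity) hb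
          have hbr : t ≤ b := by rw [ht]; exact_mod_cast hb
          have hb0r : (0 : ℝ) < b := by exact_mod_cast hb0
          have ha0r : (0 : ℝ) < a := by exact_mod_cast ha
          have g1 : (x : ℝ) * b ≤ a * (x' + hh δ i') := by
            rw [div_le_div_iff₀ (by positivity) hb0r] at hab
            exact hab
          have g2 : (2 : ℝ) ^ (i : ℝ) * t ≤ a * (3 * (2 : ℝ) ^ (i' : ℝ)) := by
            calc (2 : ℝ) ^ (i : ℝ) * t ≤ x * b := by gcongr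
              _ ≤ a * (x' + hh δ i') := g1
              _ ≤ a * (3 * (2 : ℝ) ^ (i' : ℝ)) := by
                have : (x' : ℝ) + hh δ i' ≤ 3 * (2 : ℝ) ^ (i' : ℝ) := by linarith
                gcongr
          have g3 : (hh δ i : ℝ) / a ≤ 4 * hh δ i * (2 : ℝ) ^ ((i' : ℝ) - i) / t := by
            rw [div_le_div_iff₀ ha0r ht0]
            have g4 : (2 : ℝ) ^ ((i' : ℝ) - i) * (2 : ℝ) ^ (i : ℝ) = (2 : ℝ) ^ (i' : ℝ) := by
              rw [e_mul]; congr 1; ring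
            have g5 : t ≤ 3 * (2 : ℝ) ^ ((i' : ℝ) - i) * a := by
              have : (2 : ℝ) ^ (i : ℝ) * t ≤ (2 : ℝ) ^ (i : ℝ) * (3 * (2 : ℝ) ^ ((i' : ℝ) - i) * a) := by
                calc (2 : ℝ) ^ (i : ℝ) * t ≤ a * (3 * (2 : ℝ) ^ (i' : ℝ)) := g2
                  _ = _ := by rw [← g4]; ring
              exact le_of_mul_le_mul_left this hX0
            have g6 := e_pos ((i' : ℝ) - i)
            have g7 : t ≤ 4 * (2 : ℝ) ^ ((i' : ℝ) - i) * a := by nlinarith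
            calc (hh δ i : ℝ) * t ≤ hh δ i * (4 * (2 : ℝ) ^ ((i' : ℝ) - i) * a) := by gcongr
              _ = _ := by ring
          have := min_le_left ((hh δ i : ℝ) / a) ((hh δ i' : ℝ) / b)
          linarith)
        D hD0 hDle
      rw [h4l] at hfin
      exact hfin.trans (real_A τ δ i i' (hh δ i) D t hτ hτ' hδ hδ' hi0 hii' hc hh0 hhg hD0 hD3 ht0
        ht1 ht2)
    · have hc : (i : ℝ) ≤ i' := by exact_mod_cast hcase.le
      have hD3 : D ≤ 3 * (2 : ℝ) ^ ((1 / 2 - δ) * i - i') := by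
        have f1 : (2 : ℝ) ^ ((i : ℝ) - (3 / 2 + δ) * i') ≤ (2 : ℝ) ^ ((1 / 2 - δ) * i - i') := by
          apply e_le
          nlinarith
        rw [hDdef]
        linarith
      have hfin := level_count l x x' (hh δ i) (hh δ i') (by exact_mod_cast hx0')
        (S.filter (fun u => L u = l))
        (by
          intro u hu
          obtain ⟨c1, c2⟩ := hbl u hu
          obtain ⟨d1, d2, d3, d4, -, -⟩ := hmem u (mem_filter.1 hu).1
          exact ⟨d1, d2, d3, d4, c1, c2⟩)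
        (hh δ i' / t + 1) (by positivity)
        (by
          intro a b ha hb hab
          have hbr : t ≤ b := by rw [ht]; exact_mod_cast hb
          have g3 : (hh δ i' : ℝ) / b ≤ hh δ i' / t := by gcongr
          have := min_le_right ((hh δ i : ℝ) / a) ((hh δ i' : ℝ) / b)
          linarith)
        D hD0 hDle
      rw [h4l] at hfin
      exact hfin.trans (real_B τ δ i i' (hh δ i) (hh δ i') D t hτ hτ' hδ hδ' hi0 hc hh0 hh0' hhg
        hhl' hD0 hD3 ht0 ht1 ht2 ht3)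
  -- sum over the levels
  have hsum : (S.card : ℝ) = ∑ l ∈ range (i' + 2), (((S.filter (fun u => L u = l)).card : ℕ) : ℝ) := by
    rw [card_eq_sum_card_fiberwise hLr]
    push_cast
    rfl
  rw [hsum]
  have hbound : ∑ l ∈ range (i' + 2), (((S.filter (fun u => L u = l)).card : ℕ) : ℝ) ≤
      (i' + 2) * (600 * (hh δ i * (2 : ℝ) ^ (-(τ / 2) * i))) := by
    calc _ ≤ ∑ l ∈ range (i' + 2), 600 * (hh δ i * (2 : ℝ) ^ (-(τ / 2) * i)) := sum_le_sum hlevel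
      _ = _ := by rw [sum_const, nsmul_eq_mul, card_range]; push_cast; ring
  refine hbound.trans ?_
  have hi'2 : (i' : ℝ) ≤ 2 * i + 2 := by exact_mod_cast hi'i
  have hJi := hJ i hi
  have f1 : (2 : ℝ) ^ (-(τ / 4) * i) = (2 : ℝ) ^ (τ / 4 * i) * (2 : ℝ) ^ (-(τ / 2) * i) := by
    rw [e_mul]; congr 1; ring
  rw [f1]
  have f2 := e_pos (-(τ / 2) * i)
  calc ((i' : ℝ) + 2) * (600 * (hh δ i * (2 : ℝ) ^ (-(τ / 2) * i)))
      = (600 * (i' + 2)) * (hh δ i * (2 : ℝ) ^ (-(τ / 2) * i)) := by ring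
    _ ≤ (600 * (2 * (i : ℝ) + 5)) * (hh δ i * (2 : ℝ) ^ (-(τ / 2) * i)) := by
        apply mul_le_mul_of_nonneg_right _ (by positivity)
        linarith
    _ ≤ (2 : ℝ) ^ (τ / 4 * i) * (hh δ i * (2 : ℝ) ^ (-(τ / 2) * i)) := by gcongr
    _ = _ := by ring

end Pool.Agent.W1.MO
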